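import Mathlib
import Pool.Prelude.Def_F_c31e40fa
import Pool.Agent.Helper30.PG.Cnt

/-!
# Closest returns of the critical value and nearby attracting cycles
-/

set_option autoImplicit false

open Filter Metric

namespace Pool.Agent.Results.MP_c35c17_an.ClosestReturns

/-- The polynomial `z ^ d + c`. -/
def f (d : ℕ) (c : ℂ) : ℂ → ℂ := fun z => z ^ d + c

/-- The parameters `c` for which `z ^ d + c` has an attracting cycle. -/
def hyp (d : ℕ) : Set ℂ := {c | ∃ m z, N62a1eb23.IsAttractingCycle (f d c) m z}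

/-- The absolute value of the derivative of the `N`-th iterate at the critical value `c`. -/
noncomputable def der (d : ℕ) (c : ℂ) (N : ℕ) : ℝ := ‖deriv (f d c)^[N] c‖

/-- The distance from the `j`-th point of the orbit of the critical value to the critical
value. -/
noncomputable def ret (d : ℕ) (c : ℂ) (j : ℕ) : ℝ := ‖(f d c)^[j] c - c‖

/-- There is a parameter `c'` with `|c' - c| ≤ s` such that `z ^ d + c'` has an attracting cycle of
period at most `N`. -/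
def Near (d N : ℕ) (c : ℂ) (s : ℝ) : Prop :=
  ∃ c' : ℂ, ‖c' - c‖ ≤ s ∧ ∃ p ≤ N, ∃ z, N62a1eb23.IsAttractingCycle (f d c') p z

/-- `0 < κ ≤ 1`, and no return of the critical value before the time `N` is closer than `κ`. -/
def NoReturn (d : ℕ) (c : ℂ) (N : ℕ) (κ : ℝ) : Prop :=
  0 < κ ∧ κ ≤ 1 ∧ ∀ j, 1 ≤ j → j < N → κ ≤ ret d c j

/-- The times before `N` of the closest returns of the critical value. -/
def closest (d : ℕ) (c : ℂ) (N : ℕ) : Set ℕ :=
  {j | j < N ∧ 1 ≤ j ∧ ∀ i, 1 ≤ i → i < j → ret d c j < ret d c i}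

private lemma der_eq (d : ℕ) (c : ℂ) (N : ℕ) : der d c N = ‖Pool.Agent.W746.LD.P d c c N‖ := by
  unfold der
  rw [show deriv (f d c)^[N] c = Pool.Agent.W746.LD.P d c c N from
    (Pool.Agent.W746.LD.hasDerivAt_orb (n := d) (c := c) c N).deriv]

private lemma cnt_eq (d : ℕ) (c : ℂ) (N : ℕ) :
    Pool.Agent.Helper30.PG.cnt d c N = (closest d c N).ncard := by
  classical
  unfold Pool.Agent.Helper30.PG.cnt
  rw [Nat.count_eq_card_filter_range, ← Set.ncard_coe_finset]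
  congr 1
  ext j
  simp only [Finset.coe_filter, Finset.mem_range, Set.mem_ofPred_eq, closest]
  rfl

/-- Growth of the derivatives along the orbit of the critical value, close returns of the critical
value and separation of orbits, in comparison with the earlier closest returns, give nearby
parameters with an attracting cycle. -/
theorem result (d : ℕ) (hd : 2 ≤ d) : ∃ A C : ℝ, 0 < A ∧ 1 ≤ C ∧
    -- (1) the estimates at the time `N` in terms of the closest return before it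
    (∀ c ∈ N62a1eb23.multibrotSet d, ∀ N : ℕ, 2 ≤ N → ∀ κ : ℝ, NoReturn d c N κ →
      Near d (N + 2) c (C * (N : ℝ) ^ A / (κ * der d c N)) ∧
      Near d (N + 2) c (C * (N : ℝ) ^ A / κ * ret d c N ^ (1 - 1 / (d : ℝ))) ∧
      ∀ (y : ℂ) (i : ℕ), i < N → κ ≤ ‖(f d c)^[i] y - (f d c)^[i] c‖ →
        Near d (N + 2) c (C * (N : ℝ) ^ A / κ ^ 2 * ‖y - c‖)) ∧
    -- (2) a close return at the time `N` and a large derivative at a time `M ≥ N`
    (∀ c ∈ N62a1eb23.multibrotSet d, ∀ M : ℕ, 2 ≤ M → ∀ N, 1 ≤ N → N ≤ M → ∀ κ : ℝ,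
      NoReturn d c N κ → (M : ℝ) ^ A ≤ κ * der d c M →
      Near d (M + 2) c (C * (M : ℝ) ^ A / κ * (ret d c N * (5 - Real.log (ret d c N))))) ∧
    -- (3) the derivative and the number of the closest returns
    (∀ c ∈ N62a1eb23.multibrotSet d, ∀ N : ℕ, 2 ≤ N →
      Near d (N + 2) c (C * (N : ℝ) ^ A *
        der d c N ^ (-(1 / (((closest d c N).ncard : ℝ) + 1))))) ∧
    -- (4) away from the closure of the hyperbolic parameters
    (∀ c ∈ N62a1eb23.multibrotSet d, c ∉ closure (hyp d) → ∃ K : ℝ, 0 < K ∧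
      (∀ N : ℕ, 2 ≤ N → ∀ κ : ℝ, NoReturn d c N κ →
        κ * der d c N ≤ K * (N : ℝ) ^ A ∧
        κ ≤ K * (N : ℝ) ^ A * ret d c N ^ (1 - 1 / (d : ℝ)) ∧
        ∀ (y : ℂ) (i : ℕ), i < N → κ ≤ ‖(f d c)^[i] y - (f d c)^[i] c‖ →
          κ ^ 2 ≤ K * (N : ℝ) ^ A * ‖y - c‖) ∧
      (∀ N : ℕ, 2 ≤ N → der d c N ≤ (K * (N : ℝ) ^ A) ^ ((closest d c N).ncard + 1))) ∧
    -- (5) returns at a polynomial rate
    (∀ c ∈ N62a1eb23.multibrotSet d, ∀ κ β : ℝ, 0 < κ → 0 ≤ β →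
      (∀ j : ℕ, 1 ≤ j → κ * (j : ℝ) ^ (-β) ≤ ret d c j) →
      (∀ K : ℝ, ∃ N : ℕ, 2 ≤ N ∧ K * (N : ℝ) ^ (A + β) ≤ der d c N) → c ∈ closure (hyp d)) := by
  obtain ⟨A1, C1, hA1, hC1, h1⟩ := Pool.Agent.Helper30.PG.all hd
  obtain ⟨A2, C2, hA2, hC2, h2⟩ := Pool.Agent.Helper30.PG.cnt_near hd
  obtain ⟨A, hA⟩ : ∃ A, A = max A1 A2 := ⟨_, rfl⟩
  obtain ⟨C, hC⟩ : ∃ C, C = max C1 C2 := ⟨_, rfl⟩
  have hAA1 : A1 ≤ A := by rw [hA]; exact le_max_left _ _
  have hAA2 : A2 ≤ A := by rw [hA]; exact le_max_right _ _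
  have hCC1 : C1 ≤ C := by rw [hC]; exact le_max_left _ _
  have hCC2 : C2 ≤ C := by rw [hC]; exact le_max_right _ _
  have hA0 : 0 < A := by linarith
  have hC0 : 1 ≤ C := by linarith
  have hp1 : ∀ N : ℕ, 2 ≤ N → (N : ℝ) ^ A1 ≤ (N : ℝ) ^ A := fun N hN =>
    Real.rpow_le_rpow_of_exponent_le (by exact_mod_cast (by omega : 1 ≤ N)) hAA1
  have hp2 : ∀ N : ℕ, 2 ≤ N → (N : ℝ) ^ A2 ≤ (N : ℝ) ^ A := fun N hN =>
    Real.rpow_le_rpow_of_exponent_le (by exact_mod_cast (by omega : 1 ≤ N)) hAA2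
  have hpos : ∀ N : ℕ, 2 ≤ N → 0 < (N : ℝ) ^ A := fun N hN =>
    Real.rpow_pos_of_pos (by exact_mod_cast (by omega : 0 < N)) _
  have p1 : ∀ c ∈ N62a1eb23.multibrotSet d, ∀ N : ℕ, 2 ≤ N → ∀ κ : ℝ, NoReturn d c N κ →
      Near d (N + 2) c (C * (N : ℝ) ^ A / (κ * der d c N)) ∧
      Near d (N + 2) c (C * (N : ℝ) ^ A / κ * ret d c N ^ (1 - 1 / (d : ℝ))) ∧
      ∀ (y : ℂ) (i : ℕ), i < N → κ ≤ ‖(f d c)^[i] y - (f d c)^[i] c‖ →
        Near d (N + 2) c (C * (N : ℝ) ^ A / κ ^ 2 * ‖y - c‖) := by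
    intro c hc N hN κ ⟨hκ0, hκ1, hκ⟩
    obtain ⟨h3, h4, h5⟩ := (h1 c hc).1 N hN κ hκ0 hκ1 hκ
    have hq := hp1 N hN
    have hN0 := hpos N hN
    refine ⟨?_, ?_, ?_⟩
    · refine Pool.Agent.T2H09.LV.Near.mono h3 le_rfl ?_
      rw [der_eq]
      gcongr
    · refine Pool.Agent.T2H09.LV.Near.mono h4 le_rfl ?_
      have hr : 0 ≤ ret d c N := norm_nonneg _
      change C1 * (N : ℝ) ^ A1 / κ * ret d c N ^ (1 - 1 / (d : ℝ)) ≤ _
      gcongr
    · intro y i hi hy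
      refine Pool.Agent.T2H09.LV.Near.mono (h5 y i hi hy) le_rfl ?_
      gcongr
  have p3 : ∀ c ∈ N62a1eb23.multibrotSet d, ∀ N : ℕ, 2 ≤ N →
      Near d (N + 2) c (C * (N : ℝ) ^ A *
        der d c N ^ (-(1 / (((closest d c N).ncard : ℝ) + 1)))) := by
    intro c hc N hN
    have h3 := h2 c hc N hN
    rw [cnt_eq] at h3
    refine Pool.Agent.T2H09.LV.Near.mono h3 le_rfl ?_
    rw [der_eq]
    have hq := hp2 N hN
    have hN0 := hpos N hN
    gcongr
  have p4 : ∀ c ∈ N62a1eb23.multibrotSet d, c ∉ closure (hyp d) → ∃ K : ℝ, 0 < K ∧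
      (∀ N : ℕ, 2 ≤ N → ∀ κ : ℝ, NoReturn d c N κ →
        κ * der d c N ≤ K * (N : ℝ) ^ A ∧
        κ ≤ K * (N : ℝ) ^ A * ret d c N ^ (1 - 1 / (d : ℝ)) ∧
        ∀ (y : ℂ) (i : ℕ), i < N → κ ≤ ‖(f d c)^[i] y - (f d c)^[i] c‖ →
          κ ^ 2 ≤ K * (N : ℝ) ^ A * ‖y - c‖) ∧
      (∀ N : ℕ, 2 ≤ N → der d c N ≤ (K * (N : ℝ) ^ A) ^ ((closest d c N).ncard + 1)) := by
    intro c hc hcl
    obtain ⟨δ, hδ, hb⟩ : ∃ δ > 0, ball c δ ⊆ (closure (hyp d))ᶜ :=
      Metric.isOpen_iff.mp isClosed_closure.isOpen_compl c hcl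
    have hnear : ∀ N s, Near d N c s → δ ≤ s := by
      rintro N s ⟨c', h3, p, -, z, h4⟩
      by_contra hlt
      push Not at hlt
      have h5 : c' ∈ ball c δ := by
        rw [mem_ball, dist_eq_norm]
        exact h3.trans_lt hlt
      exact hb h5 (subset_closure ⟨p, z, h4⟩)
    have hder0 : ∀ N, 0 ≤ der d c N := fun N => norm_nonneg _
    refine ⟨C / δ, by positivity, ?_, ?_⟩
    · intro N hN κ hκ
      obtain ⟨h3, h4, h5⟩ := p1 c hc N hN κ hκ
      obtain ⟨hκ0, hκ1, hκ2⟩ := hκ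
      have hN0 := hpos N hN
      refine ⟨?_, ?_, ?_⟩
      · have h6 := hnear _ _ h3
        rcases (hder0 N).eq_or_lt with h7 | h7
        · rw [← h7, mul_zero]
          positivity
        · rw [le_div_iff₀ (by positivity)] at h6
          rw [div_mul_eq_mul_div, le_div_iff₀ hδ]
          linarith
      · have h6 := hnear _ _ h4
        have e : C * (N : ℝ) ^ A / κ * ret d c N ^ (1 - 1 / (d : ℝ)) =
            C * (N : ℝ) ^ A * ret d c N ^ (1 - 1 / (d : ℝ)) / κ := by ring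
        have e' : C / δ * (N : ℝ) ^ A * ret d c N ^ (1 - 1 / (d : ℝ)) =
            C * (N : ℝ) ^ A * ret d c N ^ (1 - 1 / (d : ℝ)) / δ := by ring
        rw [e, le_div_iff₀ hκ0] at h6
        rw [e', le_div_iff₀ hδ]
        linarith
      · intro y i hi hy
        have h6 := hnear _ _ (h5 y i hi hy)
        have e : C * (N : ℝ) ^ A / κ ^ 2 * ‖y - c‖ = C * (N : ℝ) ^ A * ‖y - c‖ / κ ^ 2 := by ring
        have e' : C / δ * (N : ℝ) ^ A * ‖y - c‖ = C * (N : ℝ) ^ A * ‖y - c‖ / δ := by ring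
        rw [e, le_div_iff₀ (by positivity)] at h6
        rw [e', le_div_iff₀ hδ]
        linarith
    · intro N hN
      have h6 := hnear _ _ (p3 c hc N hN)
      have hN0 := hpos N hN
      obtain ⟨k, hk⟩ : ∃ k, k = (closest d c N).ncard := ⟨_, rfl⟩
      rw [← hk] at h6 ⊢
      rcases (hder0 N).eq_or_lt with h7 | h7
      · rw [← h7]
        positivity
      obtain ⟨b, hb⟩ : ∃ b, b = der d c N ^ (-(1 / ((k : ℝ) + 1))) := ⟨_, rfl⟩
      rw [← hb] at h6
      have hb0 : 0 < b := by rw [hb]; exact Real.rpow_pos_of_pos h7 _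
      have hbk : b ^ (k + 1) * der d c N = 1 := by
        rw [hb, ← Real.rpow_natCast, ← Real.rpow_mul h7.le]
        push_cast
        rw [neg_mul, one_div, inv_mul_cancel₀ (by positivity), Real.rpow_neg_one,
          inv_mul_cancel₀ h7.ne']
      have h8 : 1 ≤ C / δ * (N : ℝ) ^ A * b := by
        have e : C / δ * (N : ℝ) ^ A * b = C * (N : ℝ) ^ A * b / δ := by ring
        rw [e, le_div_iff₀ hδ]
        linarith
      have h9 : 1 ≤ (C / δ * (N : ℝ) ^ A) ^ (k + 1) * b ^ (k + 1) := by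
        rw [← mul_pow]
        exact one_le_pow₀ h8
      calc der d c N = 1 * der d c N := (one_mul _).symm
        _ ≤ (C / δ * (N : ℝ) ^ A) ^ (k + 1) * b ^ (k + 1) * der d c N := by gcongr
        _ = (C / δ * (N : ℝ) ^ A) ^ (k + 1) := by rw [mul_assoc, hbk, mul_one]
  refine ⟨A, C, hA0, hC0, p1, ?_, p3, p4, ?_⟩
  · intro c hc M hM N hN1 hNM κ ⟨hκ0, hκ1, hκ⟩ hP
    rw [der_eq] at hP
    refine Pool.Agent.T2H09.LV.Near.mono ((h1 c hc).2 M hM N hN1 hNM κ hκ0 hκ1 hκ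
      ((hp1 M hM).trans hP)) le_rfl ?_
    have hq := hp1 M hM
    have hr : 0 ≤ ret d c N * (5 - Real.log (ret d c N)) := by
      have h3 : ret d c N ≤ 4 := Pool.Agent.T2H09.LV.rho4 hd hc N
      have h4 : Real.log (ret d c N) ≤ ret d c N := Real.log_le_self (norm_nonneg _)
      exact mul_nonneg (norm_nonneg _) (by linarith)
    change C1 * (M : ℝ) ^ A1 / κ * (ret d c N * (5 - Real.log (ret d c N))) ≤ _
    have hN0 := hpos M hM
    gcongr
  · intro c hc κ β hκ hβ hret hK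
    by_contra hcl
    obtain ⟨K, hK0, h3, -⟩ := p4 c hc hcl
    obtain ⟨κ', hκ'⟩ : ∃ κ', κ' = min 1 κ := ⟨_, rfl⟩
    have hκ'0 : 0 < κ' := by rw [hκ']; exact lt_min one_pos hκ
    have hκ'1 : κ' ≤ 1 := by rw [hκ']; exact min_le_left _ _
    have hκ'2 : κ' ≤ κ := by rw [hκ']; exact min_le_right _ _
    obtain ⟨N, hN, h4⟩ := hK (K / κ' + 1)
    have hN0 := hpos N hN
    have hN1 : (1 : ℝ) ≤ N := by exact_mod_cast (by omega : 1 ≤ N)
    have hNβ : 0 < (N : ℝ) ^ β := Real.rpow_pos_of_pos (by linarith) _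
    have hnr : NoReturn d c N (κ' * (N : ℝ) ^ (-β)) := by
      refine ⟨by positivity, ?_, ?_⟩
      · have h5 : (N : ℝ) ^ (-β) ≤ 1 := Real.rpow_le_one_of_one_le_of_nonpos hN1 (by linarith)
        calc κ' * (N : ℝ) ^ (-β) ≤ 1 * 1 := by gcongr
          _ = 1 := one_mul 1
      · intro j hj1 hjN
        refine le_trans ?_ (hret j hj1)
        have hj0 : (0 : ℝ) < j := by exact_mod_cast hj1
        have h5 : (N : ℝ) ^ (-β) ≤ (j : ℝ) ^ (-β) := by
          apply Real.rpow_le_rpow_of_nonpos hj0 (by exact_mod_cast hjN.le) (by linarith)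
        gcongr
    obtain ⟨h5, -, -⟩ := h3 N hN _ hnr
    have h6 : der d c N ≤ K / κ' * (N : ℝ) ^ (A + β) := by
      rw [Real.rpow_add (by linarith), div_mul_eq_mul_div, le_div_iff₀ hκ'0]
      rw [Real.rpow_neg (by linarith)] at h5
      have h7 : der d c N * κ' = κ' * ((N : ℝ) ^ β)⁻¹ * der d c N * (N : ℝ) ^ β := by
        field_simp
      rw [h7, ← mul_assoc]
      gcongr
    have h7 : 0 < (N : ℝ) ^ (A + β) := Real.rpow_pos_of_pos (by linarith) _
    nlinarith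

end Pool.Agent.Results.MP_c35c17_an.ClosestReturns
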