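import Mathlib
import Pool.Prelude.Def_F_c31e40fa
import Pool.Agent.Helper30.PC.Rec

/-!
# Cancellation of the phases of the derivatives, and density of hyperbolicity
-/

set_option autoImplicit false

open Filter Metric N62a1eb23

namespace Pool.Agent.Results.MP_c35c17_an.PhaseCancellation

/-- The polynomial `z ^ d + c`. -/
def f (d : ℕ) (c : ℂ) : ℂ → ℂ := fun z => z ^ d + c

/-- The parameters `c` for which `z ^ d + c` has an attracting cycle. -/
def hyp (d : ℕ) : Set ℂ := {c | ∃ m z, IsAttractingCycle (f d c) m z}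

/-- The filled Julia set. -/
def K (d : ℕ) (c : ℂ) : Set ℂ := {z | ∃ B : ℝ, ∀ n : ℕ, ‖(f d c)^[n] z‖ ≤ B}

/-- The derivative of the `k`-th iterate at `z`. -/
noncomputable def D (d : ℕ) (c : ℂ) (k : ℕ) (z : ℂ) : ℂ := deriv (f d c)^[k] z

/-- The sum of the values of the weight `φ` at the points `z_1, ..., z_N` of the orbit of `z`, each
multiplied by the derivative of the iterate which maps `z_j` to `z_N`. -/
noncomputable def W (d : ℕ) (c : ℂ) (φ : ℂ → ℂ) (z : ℂ) (N : ℕ) : ℂ :=
  ∑ j ∈ Finset.Icc 1 N, φ ((f d c)^[j] z) * D d c (N - j) ((f d c)^[j] z)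

/-- The sum of the absolute values of these derivatives. -/
noncomputable def S (d : ℕ) (c z : ℂ) (N : ℕ) : ℝ :=
  ∑ j ∈ Finset.Icc 1 N, ‖D d c (N - j) ((f d c)^[j] z)‖

/-- The sums with the weight `φ` along the orbits of the points of `X` cancel: they are smaller than
every multiple of the sums of the absolute values, up to a constant and to the derivative at the
starting point. -/
def Null (d : ℕ) (c : ℂ) (φ : ℂ → ℂ) (X : Set ℂ) : Prop :=
  ∀ ε : ℝ, 0 < ε → ∃ C : ℝ, ∀ z ∈ X, ∀ N : ℕ, ‖W d c φ z N‖ ≤ ε * S d c z N + C * (1 + ‖D d c N z‖)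

/-- Weights which are continuous on the filled Julia set and holomorphic in its interior. -/
def Admissible (d : ℕ) (c : ℂ) (φ : ℂ → ℂ) : Prop :=
  ContinuousOn φ (K d c) ∧ DifferentiableOn ℂ φ (interior (K d c))

/-- The derivatives of the iterates at all returns of the orbit `z_1, z_2, ...` to itself at
distance less than `δ` lie in a sector about the positive half-axis. -/
def Coherent (d : ℕ) (c z : ℂ) (δ a : ℝ) : Prop :=
  ∀ i k : ℕ, 1 ≤ i → 1 ≤ k → ‖(f d c)^[i + k] z - (f d c)^[i] z‖ < δ →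
    a * ‖D d c k ((f d c)^[i] z)‖ ≤ (D d c k ((f d c)^[i] z)).re

section aux

open Pool.Agent.Helper30

private lemma D_eq (d : ℕ) (c : ℂ) (k : ℕ) (z : ℂ) : D d c k z = PC.E d c z 0 k :=
  PC.deriv_iter k z

private lemma E_shift (d : ℕ) (c z : ℂ) (i k : ℕ) :
    PC.E d c ((f d c)^[i] z) 0 k = PC.E d c z i (i + k) := by
  unfold PC.E
  rw [show Finset.Ico i (i + k) = Finset.Ico (0 + i) (k + i) by rw [zero_add, add_comm],
    ← Finset.prod_Ico_add' (fun j => PC.df d c z j) 0 k i]
  apply Finset.prod_congr rfl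
  intro j _
  unfold PC.df
  have : (PC.f d c)^[j + i] z = (PC.f d c)^[j] ((f d c)^[i] z) :=
    Function.iterate_add_apply (PC.f d c) j i z
  rw [this]

private lemma D_shift (d : ℕ) (c z : ℂ) {j N : ℕ} (h : j ≤ N) :
    D d c (N - j) ((f d c)^[j] z) = PC.E d c z j N := by
  rw [D_eq, E_shift, Nat.add_sub_cancel' h]

private lemma W_eq (d : ℕ) (c : ℂ) (φ : ℂ → ℂ) (z : ℂ) (N : ℕ) :
    W d c φ z N = PC.W d c φ z N := by
  unfold W PC.W
  apply Finset.sum_congr rfl
  intro j hj
  rw [D_shift d c z (Finset.mem_Icc.mp hj).2]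
  rfl

private lemma S_eq (d : ℕ) (c z : ℂ) (N : ℕ) : S d c z N = PC.S d c z N := by
  unfold S PC.S
  apply Finset.sum_congr rfl
  intro j hj
  rw [D_shift d c z (Finset.mem_Icc.mp hj).2]

end aux

open Pool.Agent.Helper30 in
/-- **Cancellation of phases.** For a parameter of the Multibrot set outside of the closure of the
parameters with an attracting cycle the sums of the derivatives along the orbits in the Julia set,
with every continuous weight, cancel. Hence conditions on the arguments of the derivatives along the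
critical orbit (or along another orbit) imply that the parameter belongs to this closure. -/
theorem result (d : ℕ) (hd : 2 ≤ d) (c : ℂ) (hc : c ∈ multibrotSet d) :
    -- (1) cancellation outside of the closure of the hyperbolic parameters
    (c ∉ closure (hyp d) →
      ∀ φ : ℂ → ℂ, Admissible d c φ → Null d c φ (frontier (K d c) ∪ {0})) ∧
    -- (2) coherent directions along an orbit
    (interior (K d c) = ∅ → ∀ (z : ℂ) (δ a : ℝ), 0 < δ → 0 < a → Coherent d c z δ a →
      ((∃ m : ℕ, z = (f d c)^[m] c) ∨ (z ∈ K d c ∧ (∀ i : ℕ, (f d c)^[i] z ≠ 0) ∧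
        ¬ Summable fun j : ℕ => ‖D d c j z‖⁻¹)) →
      c ∈ closure (hyp d)) ∧
    -- (3) a continuous direction field at the visits of the orbit of the critical value to a set
    (interior (K d c) = ∅ → ∀ (u : ℂ → ℂ) (A : Set ℂ) (δ : ℝ) (L n₀ : ℕ),
      ContinuousOn u (K d c) → 0 < δ →
      (∀ j : ℕ, ‖(f d c)^[j] c - c‖ < δ → (f d c)^[j] c ∈ A) →
      (∀ j : ℕ, ∃ k ≤ L, (f d c)^[j + k] c ∈ A) →
      (∀ k : ℕ, n₀ ≤ k → (∃ y ∈ A, ‖(f d c)^[k] c - y‖ < δ) →
        ‖D d c k c‖ ≤ ((starRingEnd ℂ) (u ((f d c)^[k] c)) * D d c k c).re) →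
      c ∈ closure (hyp d)) := by
  refine ⟨?_, ?_, ?_⟩
  · intro hcl φ hφ ε hε
    obtain ⟨C, hC, h1, h2⟩ := PC.cancel hd hc hcl hφ.1 hφ.2 hε
    refine ⟨C, ?_⟩
    intro z hz N
    rw [W_eq, S_eq, D_eq]
    rcases hz with hz | hz
    · exact h1 z hz N
    · rw [Set.mem_singleton_iff] at hz
      subst hz
      refine (h2 N).trans ?_
      have := mul_nonneg hC (norm_nonneg (PC.E d c 0 0 N))
      linarith
  · intro hint z δ a hδ ha hcoh hz
    have hcoh' : ∀ i k : ℕ, 1 ≤ i → 1 ≤ k → ‖(PC.f d c)^[i + k] z - (PC.f d c)^[i] z‖ < δ →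
        a * ‖PC.E d c z i (i + k)‖ ≤ (PC.E d c z i (i + k)).re := by
      intro i k hi hk h
      have := hcoh i k hi hk h
      rwa [D_eq, E_shift] at this
    rcases hz with ⟨m, hm⟩ | ⟨hz, h0, hdiv⟩
    · by_contra hcl
      have h00 : ∀ i, 1 ≤ i → (PC.f d c)^[i] 0 ≠ 0 := fun i hi h =>
        hcl (subset_closure (PC.hyp_of_zero hd hi h))
      have h0 : ∀ i, (PC.f d c)^[i] c ≠ 0 := by
        intro i
        have := h00 (i + 1) (by omega)
        rwa [Function.iterate_succ_apply, PC.f_zero hd] at this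
      have hcK : c ∈ PC.K d c := by
        have := PC.iter_mem (PC.zero_mem_K hd hc) 1
        rwa [Function.iterate_one, PC.f_zero hd] at this
      have hzK : z ∈ PC.K d c := by rw [hm]; exact PC.iter_mem hcK m
      have hz0 : ∀ i, (PC.f d c)^[i] z ≠ 0 := by
        intro i
        rw [hm]
        have := h0 (i + m)
        rwa [Function.iterate_add_apply] at this
      have hdiv : ¬ Summable fun j : ℕ => ‖PC.E d c z 0 j‖⁻¹ := by
        intro hs
        apply PC.not_summable hd hc hint hcl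
        rw [← summable_nat_add_iff m]
        have e : ∀ j, ‖PC.E d c c 0 (j + m)‖⁻¹ =
            ‖PC.E d c c 0 m‖⁻¹ * ‖PC.E d c z 0 j‖⁻¹ := by
          intro j
          rw [hm, E_shift, ← mul_inv, ← norm_mul, PC.E_mul (Nat.zero_le m) (by omega),
            add_comm j m]
        simp only [e]
        exact hs.mul_left _
      exact hcl (PC.coh_orbit hd hc hint hzK hz0 hdiv hδ ha hcoh')
    · refine PC.coh_orbit hd hc hint hz h0 ?_ hδ ha hcoh'
      intro hs
      apply hdiv
      simp only [D_eq]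
      exact hs
  · intro hint u A δ L n₀ hu hδ hA hL hsec
    refine PC.field hd hc hint hu hδ (L := L) (n₀ := n₀) hA hL ?_
    intro k hk h
    have hne : A.Nonempty := ⟨_, hA 0 (by simp [hδ])⟩
    obtain ⟨y, hy, h1⟩ := (infDist_lt_iff hne).mp h
    rw [dist_eq_norm] at h1
    have := hsec k hk ⟨y, hy, h1⟩
    rwa [D_eq] at this

end Pool.Agent.Results.MP_c35c17_an.PhaseCancellation
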