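import Mathlib
import Pool.Prelude.Def_F_c31e40fa
import Pool.Agent.Helper95.GB.Thin

/-!
# Hyperbolic parameters near topologically typical boundary points of the Multibrot sets

Let `M` be the Multibrot set of degree `d ≥ 2`. For `c₀` in a residual subset of the boundary of
`M`, there are arbitrarily small discs about `c₀` which are filled, up to an arbitrarily small
proportion of their area, by a single hyperbolic component, and there are arbitrarily small discs
about `c₀` of radius `r` in which `M` has an area less than `r ^ σ`, for every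
`σ < 2 d / (d - 1)`. In particular the upper density at `c₀` of the set of hyperbolic parameters is
one. The first property fails at almost every point of the boundary of `M`, with respect to the area
and with respect to the harmonic measure.
-/

set_option autoImplicit false

open Complex Metric Set Filter Topology MeasureTheory

namespace Pool.Agent.Results.MP_c35c17_an.TypicalArea

open N62a1eb23
open Pool.Agent.H713R2 (IsExteriorMap)

/-- The polynomial `z ^ d + c`. -/
def f (d : ℕ) (c : ℂ) : ℂ → ℂ := fun z => z ^ d + c

/-- `z ^ d + c` has an attracting cycle of exact period `n`. -/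
def Att (d n : ℕ) (c : ℂ) : Prop :=
  0 < n ∧ ∃ z : ℂ, Function.minimalPeriod (f d c) z = n ∧ ‖deriv ((f d c)^[n]) z‖ < 1

/-- There are arbitrarily small discs about `c₀` which are filled, up to the proportion `ε` of the
area, by a connected set of parameters with an attracting cycle of the same exact period `n`
(hence by one hyperbolic component); `ε` is arbitrarily small and `n` arbitrarily large. -/
def Thick (d : ℕ) (c₀ : ℂ) : Prop :=
  ∀ ε : ℝ, 0 < ε → ∀ N : ℕ, ∃ᶠ r in 𝓝[>] (0 : ℝ), ∃ (n : ℕ) (V : Set ℂ), N ≤ n ∧
    IsConnected V ∧ (∀ c ∈ V, Att d n c) ∧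
      (1 - ε) * (Real.pi * r ^ 2) < (volume (V ∩ ball c₀ r)).toReal

/-- There are arbitrarily small discs about `c₀` in which the area of the Multibrot set is less than
the power `σ` of the radius, for all `σ < 2 d / (d - 1)`. -/
def Thin (d : ℕ) (c₀ : ℂ) : Prop :=
  ∀ σ : ℝ, σ < 2 * d / (d - 1) → ∃ᶠ r in 𝓝[>] (0 : ℝ),
    (volume (multibrotSet d ∩ ball c₀ r)).toReal < r ^ σ

theorem thick_null {d : ℕ} (hd : 2 ≤ d) :
    volume {c₀ : ℂ | c₀ ∈ frontier (multibrotSet d) ∧ Thick d c₀} = 0 := by
  have hpi := Real.pi_pos
  have hcl : IsClosed (frontier (multibrotSet d)) := isClosed_frontier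
  have h1 := Besicovitch.ae_tendsto_measure_inter_div (volume : Measure ℂ)
    (frontier (multibrotSet d))
  rw [ae_restrict_iff' hcl.measurableSet] at h1
  have h2 : ∀ᵐ x : ℂ, ¬ (x ∈ frontier (multibrotSet d) ∧ Thick d x) := by
    filter_upwards [h1] with x hx hcon
    obtain ⟨hxf, hxT⟩ := hcon
    have h3 := hx hxf
    have h4 : ∀ᶠ r in 𝓝[>] (0 : ℝ), ENNReal.ofReal (1 / 2) <
        volume (frontier (multibrotSet d) ∩ closedBall x r) / volume (closedBall x r) := by
      refine h3.eventually_const_lt ?_
      rw [ENNReal.ofReal_lt_one]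
      norm_num
    obtain ⟨r, ⟨n, V, -, -, hV, hvol⟩, h5, h6⟩ := ((hxT (1 / 2) (by norm_num) 0).and_eventually
      (h4.and self_mem_nhdsWithin)).exists
    have hr : 0 < r := h6
    have hVi : V ⊆ interior (multibrotSet d) := by
      intro c hc
      have h7 : c ∈ Pool.Agent.Helper95.GB.Hyp d := ⟨n, hV c hc⟩
      exact interior_maximal (Pool.Agent.Helper95.GB.hyp_sub hd)
        (Pool.Agent.Helper95.GB.isOpen_hyp d) h7
    have hdis : Disjoint (frontier (multibrotSet d) ∩ ball x r)
        (interior (multibrotSet d) ∩ ball x r) := by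
      apply Disjoint.mono inter_subset_left inter_subset_left
      exact (disjoint_interior_frontier).symm
    have hA : (volume (frontier (multibrotSet d) ∩ ball x r)).toReal +
        (volume (interior (multibrotSet d) ∩ ball x r)).toReal ≤ Real.pi * r ^ 2 := by
      rw [← ENNReal.toReal_add, ← measure_union hdis (isOpen_interior.inter isOpen_ball).measurableSet,
        ← Pool.Agent.Helper95.GB.vol_ball_pi x hr.le]
      · apply ENNReal.toReal_mono measure_ball_lt_top.ne
        exact measure_mono (union_subset inter_subset_right inter_subset_right)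
      · exact ((measure_mono inter_subset_right).trans_lt measure_ball_lt_top).ne
      · exact ((measure_mono inter_subset_right).trans_lt measure_ball_lt_top).ne
    have hB : (volume (V ∩ ball x r)).toReal ≤
        (volume (interior (multibrotSet d) ∩ ball x r)).toReal := by
      apply ENNReal.toReal_mono
      · exact ((measure_mono inter_subset_right).trans_lt measure_ball_lt_top).ne
      · exact measure_mono (inter_subset_inter_left _ hVi)
    have hC : volume (frontier (multibrotSet d) ∩ closedBall x r) =
        volume (frontier (multibrotSet d) ∩ ball x r) := by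
      apply le_antisymm
      · calc volume (frontier (multibrotSet d) ∩ closedBall x r) ≤
              volume ((frontier (multibrotSet d) ∩ ball x r) ∪ sphere x r) := by
                apply measure_mono
                rintro y ⟨hy1, hy2⟩
                rw [← ball_union_sphere] at hy2
                rcases hy2 with hy2 | hy2
                · exact Or.inl ⟨hy1, hy2⟩
                · exact Or.inr hy2
          _ ≤ volume (frontier (multibrotSet d) ∩ ball x r) + volume (sphere x r) :=
                measure_union_le _ _
          _ = _ := by rw [Measure.addHaar_sphere, add_zero]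
      · exact measure_mono (inter_subset_inter_right _ ball_subset_closedBall)
    have hD : volume (closedBall x r) = ENNReal.ofReal (Real.pi * r ^ 2) := by
      rw [Measure.addHaar_closedBall_eq_addHaar_ball, ← Pool.Agent.Helper95.GB.vol_ball_pi x hr.le,
        ENNReal.ofReal_toReal measure_ball_lt_top.ne]
    rw [hC, hD, ENNReal.lt_div_iff_mul_lt (Or.inl (by
      rw [Ne, ENNReal.ofReal_eq_zero, not_le]
      positivity)) (Or.inl ENNReal.ofReal_ne_top), ← ENNReal.ofReal_mul (by norm_num),
      ENNReal.ofReal_lt_iff_lt_toReal (by positivity)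
        ((measure_mono inter_subset_right).trans_lt measure_ball_lt_top).ne] at h5
    linarith
  have h3 : {c₀ : ℂ | c₀ ∈ frontier (multibrotSet d) ∧ Thick d c₀} =
      {x : ℂ | ¬ ¬ (x ∈ frontier (multibrotSet d) ∧ Thick d x)} := by
    ext x
    simp only [mem_ofPred_eq, not_not]
  rw [h3]
  exact h2

/-- **Topologically typical boundary parameters of the Multibrot sets.** -/
theorem result (d : ℕ) (hd : 2 ≤ d) :
    (∀ᶠ c₀ : frontier (multibrotSet d) in residual (frontier (multibrotSet d)),
      Thick d c₀ ∧ Thin d c₀) ∧
    volume {c₀ : ℂ | c₀ ∈ frontier (multibrotSet d) ∧ Thick d c₀} = 0 ∧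
    (∀ ψ : ℂ → ℂ, IsExteriorMap (multibrotSet d) ψ → ∀ᵐ θ : ℝ, ∃ c₀ ∈ frontier (multibrotSet d),
      Tendsto (fun r : ℝ => ψ (r * exp (θ * I))) (𝓝[>] 1) (𝓝 c₀) ∧ ¬ Thick d c₀) := by
  refine ⟨?_, thick_null hd, ?_⟩
  · filter_upwards [Pool.Agent.Helper95.GB.zooms_residual hd,
      Pool.Agent.Helper95.GB.thin_residual hd] with c₀ h1 h2
    exact ⟨fun ε hε N => Pool.Agent.Helper95.GB.thick hd h1 hε N, h2⟩
  · intro ψ hψ
    filter_upwards [Pool.Agent.Helper95.GB.ae_land_lyap hd hψ] with θ hθ
    obtain ⟨c₀, h1, h2, h3⟩ := hθ
    exact ⟨c₀, h1, h2, fun h4 => Pool.Agent.Helper95.GB.not_lyap' hd (h4 (1 / 2) (by norm_num) 0) h3⟩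

end Pool.Agent.Results.MP_c35c17_an.TypicalArea
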