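import Mathlib
import Pool.Prelude.Def_F_c31e40fa
import Pool.Agent.Helper95.GB.Thin

/-!
# The whole family appears at every scale and position near a typical boundary parameter

Let `M` be the Multibrot set of degree `d ≥ 2`. For every `c₀` in a residual subset of the boundary
of `M`, **every** point `t₀` of the boundary of `M` and every `R > 0`, there are an arbitrarily small
copy of the family `z ^ d + t`, `|t| ≤ R`, in which `c₀` is the parameter corresponding to `t₀`: for
`c = c₀ + l (t - t₀)` the first return map of `z ^ d + c` to a small disc about the critical point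
is, after a linear change of coordinates, `1 / R`-close to `z ^ d + t` on the disc of radius `R`, and
the attracting cycles of the polynomials `z ^ d + t`, for `t` in a prescribed compact set of
hyperbolic parameters, are all inherited, with the exact periods multiplied by the return time.
At almost every boundary parameter for the harmonic measure this is false.
-/

set_option autoImplicit false

open Complex Metric Set Filter Topology MeasureTheory

namespace Pool.Agent.Results.MP_c35c17_an.TypicalCopies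

open N62a1eb23
open Pool.Agent.H713R2 (IsExteriorMap)

/-- The polynomial `z ^ d + c`. -/
def f (d : ℕ) (c : ℂ) : ℂ → ℂ := fun z => z ^ d + c

/-- The parameters of the polynomials `z ^ d + c` with an attracting cycle. -/
def hyperbolic (d : ℕ) : Set ℂ := {c | ∃ m z, IsAttractingCycle (f d c) m z}

/-- `z ^ d + c` has an attracting cycle of exact period `p`. -/
def Att (d p : ℕ) (c : ℂ) : Prop :=
  0 < p ∧ ∃ z : ℂ, Function.minimalPeriod (f d c) z = p ∧ ‖deriv ((f d c)^[p]) z‖ < 1

/-- The map `g ^ n`, in the coordinate `z / m`, is `1 / R`-close to `Q` on the disc `|z| ≤ R`, and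
the orbits of the points `m z` do not return to the disc of radius `R |m|` before the time `n`. -/
def Renormalises (g Q : ℂ → ℂ) (m : ℂ) (n : ℕ) (R : ℝ) : Prop :=
  ∀ z : ℂ, ‖z‖ ≤ R → ‖g^[n] (m * z) / m - Q z‖ ≤ 1 / R ∧
    ∀ j, 0 < j → j < n → R * ‖m‖ < ‖g^[j] (m * z)‖

/-- In the scale `l` the parameter plane near `c₀` is a copy of the parameter plane in which `c₀`
corresponds to `t₀`. -/
def Copy (d : ℕ) (K : Set ℂ) (R : ℝ) (n : ℕ) (l m c₀ t₀ : ℂ) : Prop :=
  (∀ t : ℂ, ‖t‖ ≤ R → Renormalises (f d (c₀ + l * (t - t₀))) (f d t) m n R) ∧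
    ∀ t ∈ K, ∀ p, Att d p t → Att d (n * p) (c₀ + l * (t - t₀))

/-- At every position `t₀` on the boundary, there are arbitrarily small, arbitrarily good copies. -/
def Universal (d : ℕ) (c₀ : ℂ) : Prop :=
  ∀ t₀ ∈ frontier (multibrotSet d), ∀ K ⊆ hyperbolic d, IsCompact K → ∀ R : ℝ, 0 < R →
    ∃ (n : ℕ) (l m : ℂ), R ≤ n ∧ 0 < ‖l‖ ∧ ‖l‖ ≤ 1 / R ∧ 0 < ‖m‖ ∧ ‖m‖ ≤ 1 / R ∧
      Copy d K R n l m c₀ t₀

theorem hyp_eq (d : ℕ) : hyperbolic d = Pool.Agent.Helper95.GB.Hyp d := by
  ext c
  constructor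
  · rintro ⟨m, z, h⟩
    exact ⟨_, Pool.Agent.Helper95.GB.att_of_cycle h⟩
  · rintro ⟨p, h⟩
    obtain ⟨z, h1, -⟩ := h.cycle
    exact ⟨p, z, h1⟩

theorem universal_iff {d : ℕ} {c₀ : ℂ} : Universal d c₀ ↔ Pool.Agent.Helper95.GB.Zooms d c₀ := by
  have e : ∀ l t t₀ : ℂ, c₀ + l * (t - t₀) = c₀ - l * t₀ + l * t := fun l t t₀ => by ring
  constructor
  · intro h t₀ ht₀ K hK hKc R hR
    rw [← hyp_eq] at hK
    obtain ⟨n, l, m, h1, h2, h3, h4, h5, h6, h7⟩ := h t₀ ht₀ K hK hKc R hR
    refine ⟨n, l, m, h1, h2, h3, h4, h5, fun t z ht hz => ?_, fun t ht p hp => ?_⟩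
    · have := h6 t ht z hz
      rw [e] at this
      exact this
    · have := h7 t ht p hp
      rw [e] at this
      exact this
  · intro h t₀ ht₀ K hK hKc R hR
    rw [hyp_eq] at hK
    obtain ⟨n, l, m, h1, h2, h3, h4, h5, h6, h7⟩ := h t₀ ht₀ K hK hKc R hR
    refine ⟨n, l, m, h1, h2, h3, h4, h5, fun t ht z hz => ?_, fun t ht p hp => ?_⟩
    · rw [e]
      exact h6 t z ht hz
    · rw [e]
      exact h7 t ht p hp

/-- **Universality at the topologically typical boundary parameters.** -/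
theorem result (d : ℕ) (hd : 2 ≤ d) :
    (∀ᶠ c₀ : frontier (multibrotSet d) in residual (frontier (multibrotSet d)),
      Universal d c₀) ∧
    (∀ ψ : ℂ → ℂ, IsExteriorMap (multibrotSet d) ψ → ∀ᵐ θ : ℝ, ∃ c₀ ∈ frontier (multibrotSet d),
      Tendsto (fun r : ℝ => ψ (r * exp (θ * I))) (𝓝[>] 1) (𝓝 c₀) ∧ ¬ Universal d c₀) := by
  refine ⟨?_, ?_⟩
  · filter_upwards [Pool.Agent.Helper95.GB.zooms_residual hd] with c₀ h1
    exact universal_iff.2 h1
  · intro ψ hψ
    filter_upwards [Pool.Agent.Helper95.GB.ae_land_lyap hd hψ] with θ hθ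
    obtain ⟨c₀, h1, h2, h3⟩ := hθ
    exact ⟨c₀, h1, h2, fun h4 => Pool.Agent.Helper95.GB.not_lyap hd (universal_iff.1 h4) h3⟩

end Pool.Agent.Results.MP_c35c17_an.TypicalCopies
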